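import Pool.Agent.N418.CZ.Stm

set_option autoImplicit false

/-! Real sequences. -/

namespace Pool.Agent.N543.CZ.LIM

open Filter Topology
open Pool.Agent.N418.CZ (w S_LIM)

lemma ratio {t : ℕ → ℝ} {q : ℝ} (ht : ∀ n, 0 < t n)
    (h : Tendsto (fun n => t n / t (n + 1)) atTop (𝓝 q)) (j : ℕ) :
    Tendsto (fun n => t (n - j) / t n) atTop (𝓝 (q ^ j)) := by
  induction j with
  | zero =>
    rw [pow_zero]
    refine tendsto_const_nhds.congr fun n => ?_
    rw [Nat.sub_zero, div_self (ht n).ne']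
  | succ j ih =>
    have h1 : Tendsto (fun n : ℕ => n - (j + 1)) atTop atTop := tendsto_sub_atTop_nat (j + 1)
    have h2 := (h.comp h1).mul ih
    rw [← pow_succ'] at h2
    refine h2.congr' ?_
    filter_upwards [eventually_ge_atTop (j + 1)] with n hn
    show t (n - (j + 1)) / t (n - (j + 1) + 1) * (t (n - j) / t n) = _
    rw [show n - (j + 1) + 1 = n - j by omega]
    have := (ht (n - j)).ne'
    field_simp

lemma wlim {t : ℕ → ℝ} {q : ℝ} (ht : ∀ n, 0 < t n)
    (h : Tendsto (fun n => t n / t (n + 1)) atTop (𝓝 q)) (m r : ℕ) :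
    Tendsto (fun n => w t m r n / t n) atTop (𝓝 ((1 - q ^ m) ^ r)) := by
  induction r with
  | zero =>
    rw [pow_zero]
    refine tendsto_const_nhds.congr fun n => ?_
    show 1 = t n / t n
    rw [div_self (ht n).ne']
  | succ r ih =>
    have h1 : Tendsto (fun n : ℕ => n - m) atTop atTop := tendsto_sub_atTop_nat m
    have h2 := ih.sub ((ih.comp h1).mul (ratio ht h m))
    have e : (1 - q ^ m) ^ r - (1 - q ^ m) ^ r * q ^ m = (1 - q ^ m) ^ (r + 1) := by ring
    rw [e] at h2
    refine h2.congr fun n => ?_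
    show w t m r n / t n - w t m r (n - m) / t (n - m) * (t (n - m) / t n) = (w t m r n - w t m r (n - m)) / t n
    have h3 := (ht (n - m)).ne'
    have h4 := (ht n).ne'
    field_simp

lemma one_lim {t e : ℕ → ℝ} {q : ℝ} (hq : 0 < q) (hq1 : q ≤ 1) (ht : ∀ n, 0 < t n)
    (h : Tendsto (fun n => t n / t (n + 1)) atTop (𝓝 q)) (m : ℕ) (he : ∀ n, e n ≤ t n)
    (hw : ∀ r : ℕ, ∀ᶠ n in atTop, t n - w t m r n ≤ e n) :
    Tendsto (fun n => e n / t n) atTop (𝓝 1) := by
  have hq0 : 0 ≤ 1 - q ^ m := by linarith [pow_le_one₀ (n := m) hq.le hq1]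
  have hq2 : 1 - q ^ m < 1 := by linarith [pow_pos hq m]
  rw [Metric.tendsto_atTop']
  intro ε hε
  obtain ⟨r, hr⟩ := exists_pow_lt_of_lt_one hε hq2
  have h1 := (wlim ht h m r).eventually (gt_mem_nhds hr)
  obtain ⟨N, hN⟩ := eventually_atTop.mp (h1.and (hw r))
  refine ⟨N, fun n hn => ?_⟩
  obtain ⟨h2, h3⟩ := hN n hn.le
  have ht' := ht n
  rw [Real.dist_eq, abs_lt]
  have h4 : e n / t n ≤ 1 := by rw [div_le_one ht']; exact he n
  have h5 : 1 - w t m r n / t n ≤ e n / t n := by
    rw [← div_self ht'.ne', ← sub_div]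
    exact div_le_div_of_nonneg_right h3 ht'.le
  constructor <;> linarith

theorem t_LIM : S_LIM := by
  intro t δ c q m hq hq1 ht h hδ hc hδw hcw
  have h1 : Tendsto (fun n => δ n / t n) atTop (𝓝 1) := by
    refine one_lim hq hq1 ht h m hδ fun r => ?_
    filter_upwards [eventually_ge_atTop (r * m)] with n hn
    exact hδw r n hn
  have h2 : Tendsto (fun n => c n / t (n + 1)) atTop (𝓝 1) := by
    -- extend the sequence `c` to the left by `t 0`
    have h4 := one_lim (e := fun n => if n = 0 then t 0 else c (n - 1)) hq hq1 ht h m (fun n => by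
      by_cases hn : n = 0
      · subst hn; simp
      · rw [if_neg hn]
        have := hc (n - 1)
        rwa [Nat.sub_add_cancel (Nat.one_le_iff_ne_zero.mpr hn)] at this) (fun r => by
      filter_upwards [eventually_ge_atTop (r * m + 1)] with n hn
      have hn0 : n ≠ 0 := by omega
      rw [if_neg hn0]
      have := hcw r (n - 1) (by omega)
      rwa [Nat.sub_add_cancel (Nat.one_le_iff_ne_zero.mpr hn0)] at this)
    have h5 := h4.comp (tendsto_add_atTop_nat 1)
    refine h5.congr fun n => ?_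
    show (if n + 1 = 0 then t 0 else c (n + 1 - 1)) / t (n + 1) = _
    rw [if_neg (Nat.succ_ne_zero n), Nat.add_sub_cancel]
  have h6 : Tendsto (fun n => (δ n / t n) * (t n / t (n + 1)) / (c n / t (n + 1))) atTop (𝓝 (1 * q / 1)) :=
    (h1.mul h).div h2 one_ne_zero
  rw [one_mul, div_one] at h6
  have h7 := h6.const_sub 1
  refine h7.congr' ?_
  have h8 := h2.eventually (lt_mem_nhds (one_half_lt_one : (1:ℝ) / 2 < 1))
  filter_upwards [h8] with n hn
  have ht0 := ht n
  have ht1 := ht (n + 1)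
  have hc0 : 0 < c n := by
    have : 0 < c n / t (n + 1) := by linarith
    exact (div_pos_iff_of_pos_right ht1).mp this
  have h9 := hc0.ne'
  have h10 := ht0.ne'
  have h11 := ht1.ne'
  field_simp

end Pool.Agent.N543.CZ.LIM
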